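import Pool.Agent.V11192.Arcs.Main

/-!
# A covering of the plane by non-overlapping arcs which is not smooth almost everywhere

Negative answer to Q1 (for `S = ℝ²`). The definitions `IsDiffArc`, `IsEndpoint`, `IsArcCovering`,
`lineAngle`, `SmoothAt` are in `Pool/Agent/V11192/Arcs/Defs.lean`.

Let `K ⊂ ℝ` be closed, nowhere dense, with complement of measure less than one. The leaves are the
graphs `y = c + a(c) sin (x / w(c))`, `c ∈ ℝ`, where `w(c)` is the length of the gap `(l, r)` of `K`
containing `c` and `a(c) = (c - l) (r - c) / (2 w(c))`, and `a(c) = 0` for `c ∈ K`. They partition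
the plane; cut them into the half-open arcs over `[k, k + 1)`, `k ∈ ℤ`. Near every point `(x, y)`
with `y ∈ K` (not an endpoint of a gap) there are short gaps, so there are tangent lines of
slope `1/8`, while the tangent line at `(x, y)` is horizontal.
-/

namespace Pool.Agent.Results.MP_85e89d_gt.NotSmooth

open MeasureTheory
open Pool.Agent.V11192.Arcs
open scoped ContDiff

/-- There is a covering of the plane by non-overlapping differentiable (even real analytic)
rectifiable arcs of length at least one for which the set of points at which the covering is not
smooth has infinite (in particular positive) Lebesgue measure. -/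
theorem result : ∃ (ι : Type) (I : ι → Set ℝ) (γ : ι → ℝ → Plane), IsArcCovering I γ 1 ∧
    (∀ i, ContDiff ℝ ω (γ i)) ∧ volume {p : Plane | ¬ SmoothAt I γ p} = ⊤ :=
  ⟨Idx, exists_covering⟩

end Pool.Agent.Results.MP_85e89d_gt.NotSmooth
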